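import Pool.Agent.helper15.FH.Base

set_option autoImplicit false

/-! # One place, lower bound for the entropy (module fh:LO) -/

namespace Pool.Agent.helper8.FH

open Finset Pool.Agent.helper32.Cant Pool.Agent.helper15.FH

noncomputable section

section abs

variable {Ω : Type} [Fintype Ω] {α β γ : Type} [Fintype β] {μ : Ω → ℝ}

theorem sum_ind_eq (f : β → ℝ) (b : β) : ∑ a, ind (b = a) * f a = f b := by
  classical
  rw [Finset.sum_eq_single b]
  · rw [ind_of rfl, one_mul]
  · intro a _ hab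
    rw [ind_of_not (fun h => hab h.symm), zero_mul]
  · intro h
    exact absurd (mem_univ b) h

theorem ind_and_mul (p q : Prop) : ind (p ∧ q) = ind p * ind q := by
  by_cases hp : p <;> by_cases hq : q
  · rw [ind_of ⟨hp, hq⟩, ind_of hp, ind_of hq, one_mul]
  · rw [ind_of_not (fun h => hq h.2), ind_of_not hq, mul_zero]
  · rw [ind_of_not (fun h => hp h.1), ind_of_not hp, zero_mul]
  · rw [ind_of_not (fun h => hp h.1), ind_of_not hp, zero_mul]

/-- the expectation of a function of the value of `C`, by conditioning on `G` -/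
theorem ex_val (hμ : IsProb μ) (G : Ω → α) (C : Ω → β) (h : β → Ω → ℝ)
    (hh : ∀ a ω ω', G ω = G ω' → h a ω = h a ω') (f : Ω → ℝ) :
    ex μ (fun ω => h (C ω) ω * f ω) =
      ex μ (fun ω => ∑ a, h a ω * ce μ G (fun y => ind (C y = a) * f y) ω) := by
  rw [ex_sum]
  have h1 : ∀ a, ex μ (fun ω => h a ω * ce μ G (fun y => ind (C y = a) * f y) ω) =
      ex μ (fun ω => h a ω * (ind (C ω = a) * f ω)) := fun a =>
    ex_mul_ce hμ.1 G (hh a) _
  rw [Finset.sum_congr rfl (fun a _ => h1 a), ← ex_sum]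
  congr 1
  funext ω
  have h2 := sum_ind_eq (fun a => h a ω) (C ω)
  rw [← h2, Finset.sum_mul]
  exact Finset.sum_congr rfl fun a _ => by ring

theorem locKey (hμ : IsProb μ) (G : Ω → α) (C : Ω → β) (F : Ω → γ) (A : Ω → Prop)
    (hG : Ref G F) (hC : Ref C F) (s : ℝ) (hs : 0 ≤ s) :
    ex μ (fun ω => ce μ G (fun y => ind (C y = C ω) * ind (A y)) ω
        / ce μ G (fun y => ind (A y)) ω * ind (A ω)) ≤
      s * ex μ (fun ω => pm μ (fun z => (G z, C z)) ω / pm μ G ω)
        + 3 * ex μ (fun ω => |ce μ F (fun y => ind (A y)) ω - s|) := by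
  classical
  set p : β → Ω → ℝ := fun a => ce μ G (fun y => ind (C y = a)) with hp
  set q : β → Ω → ℝ := fun a => ce μ G (fun y => ind (C y = a) * ind (A y)) with hq
  set r : Ω → ℝ := ce μ G (fun y => ind (A y)) with hr
  set u : β → Ω → ℝ := fun a ω => q a ω / r ω with hu
  have hpG : ∀ a ω ω', G ω = G ω' → p a ω = p a ω' := fun a ω ω' h => ce_eq h
  have hqG : ∀ a ω ω', G ω = G ω' → q a ω = q a ω' := fun a ω ω' h => ce_eq h
  have hrG : ∀ ω ω', G ω = G ω' → r ω = r ω' := fun ω ω' h => ce_eq h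
  have huG : ∀ a ω ω', G ω = G ω' → u a ω = u a ω' := fun a ω ω' h => by
    simp only [hu]
    rw [hqG a ω ω' h, hrG ω ω' h]
  have hq0 : ∀ a ω, 0 ≤ q a ω := fun a ω =>
    ce_nonneg hμ.1 G ω fun y _ _ => mul_nonneg (ind_nonneg _) (ind_nonneg _)
  have hr0 : ∀ ω, 0 ≤ r ω := fun ω => ce_nonneg hμ.1 G ω fun y _ _ => ind_nonneg _
  have hsum : ∀ ω, ∑ a, q a ω = r ω := by
    intro ω
    simp only [hq, hr]
    rw [← ce_sum]
    congr 1
    funext y
    rw [sum_ind_eq (fun _ => ind (A y)) (C y)]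
  have hqr : ∀ a ω, q a ω ≤ r ω := fun a ω => by
    rw [← hsum ω]
    exact single_le_sum (f := fun a => q a ω) (fun a _ => hq0 a ω) (mem_univ a)
  have hu0 : ∀ a ω, 0 ≤ u a ω := fun a ω => div_nonneg (hq0 a ω) (hr0 ω)
  have hu1 : ∀ a ω, u a ω ≤ 1 := fun a ω => div_le_one_of_le₀ (hqr a ω) (hr0 ω)
  have hqu : ∀ a ω, q a ω = r ω * u a ω := by
    intro a ω
    rcases (hr0 ω).eq_or_lt with h | h
    · have h1 : q a ω = 0 := le_antisymm (by rw [h]; exact hqr a ω) (hq0 a ω)
      rw [h1, ← h, zero_mul]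
    · simp only [hu]
      field_simp
  have husum : ∀ ω, ∑ a, u a ω ≤ 1 := by
    intro ω
    simp only [hu]
    rw [← Finset.sum_div, hsum ω]
    exact div_self_le_one _
  -- the left side
  have e1 : ex μ (fun ω => u (C ω) ω * ind (A ω)) = ex μ (fun ω => ∑ a, u a ω * q a ω) :=
    ex_val hμ G C u huG (fun ω => ind (A ω))
  have e2 : ex μ (fun ω => pm μ (fun z => (G z, C z)) ω / pm μ G ω) =
      ex μ (fun ω => ∑ a, p a ω * p a ω) := by
    have h1 := ex_val hμ G C p hpG (fun _ => 1)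
    simp only [mul_one] at h1
    rw [← h1]
    congr 1
    funext ω
    simp only [hp, ce]
    congr 1
    unfold pm
    refine Finset.sum_congr rfl fun y _ => ?_
    rw [mul_assoc, ← ind_and_mul, ind_congr (Prod.mk_inj (a₁ := G y) (a₂ := G ω))]
  have e3 : ex μ (fun ω => u (C ω) ω * (ind (A ω) - s)) =
      ex μ (fun ω => ∑ a, u a ω * (q a ω - s * p a ω)) := by
    rw [ex_val hμ G C u huG (fun ω => ind (A ω) - s)]
    congr 1
    funext ω
    refine Finset.sum_congr rfl fun a _ => ?_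
    congr 1
    simp only [hq, hp]
    rw [← ce_smul, ← ce_sub]
    congr 1
    funext y
    ring
  set v : Ω → ℝ := fun ω => ∑ a, u a ω ^ 2 with hv
  have hvG : ∀ ω ω', G ω = G ω' → v ω = v ω' := fun ω ω' h => by
    simp only [hv]
    exact Finset.sum_congr rfl fun a _ => by rw [huG a ω ω' h]
  have e4 : ex μ (fun ω => v ω * (ind (A ω) - s)) = ex μ (fun ω => v ω * (r ω - s)) := by
    have h1 := ex_mul_ce hμ.1 G hvG (fun ω => ind (A ω))
    have h2 : ∀ f : Ω → ℝ, ex μ (fun ω => v ω * (f ω - s)) =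
        ex μ (fun ω => v ω * f ω) - ex μ (fun ω => v ω * s) := by
      intro f
      rw [← ex_sub]
      congr 1
      funext ω
      ring
    rw [h2, h2, ← h1]
  -- the pointwise inequality
  have hpt : ∀ ω, ∑ a, u a ω * q a ω ≤ s * (∑ a, p a ω * p a ω)
      + 2 * (∑ a, u a ω * (q a ω - s * p a ω)) - v ω * (r ω - s) := by
    intro ω
    have h1 : s * (∑ a, p a ω * p a ω) + 2 * (∑ a, u a ω * (q a ω - s * p a ω))
        - v ω * (r ω - s) - ∑ a, u a ω * q a ω = ∑ a, s * (p a ω - u a ω) ^ 2 := by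
      simp only [hv]
      rw [Finset.mul_sum, Finset.mul_sum, Finset.sum_mul, ← Finset.sum_add_distrib,
        ← Finset.sum_sub_distrib, ← Finset.sum_sub_distrib]
      refine Finset.sum_congr rfl fun a _ => ?_
      rw [hqu a ω]
      ring
    have h2 : 0 ≤ ∑ a, s * (p a ω - u a ω) ^ 2 :=
      Finset.sum_nonneg fun a _ => mul_nonneg hs (sq_nonneg _)
    linarith
  have e5 : ex μ (fun ω => ∑ a, u a ω * q a ω) ≤ s * ex μ (fun ω => ∑ a, p a ω * p a ω)
      + 2 * ex μ (fun ω => ∑ a, u a ω * (q a ω - s * p a ω))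
      - ex μ (fun ω => v ω * (r ω - s)) := by
    rw [← ex_smul, ← ex_smul, ← ex_add, ← ex_sub]
    exact ex_mono hμ.1 fun ω _ => hpt ω
  -- replace the event by its conditional probability
  set ρ : Ω → ℝ := ce μ F (fun y => ind (A y)) with hρ
  have hgen : ∀ w : Ω → ℝ, (∀ ω ω', F ω = F ω' → w ω = w ω') → (∀ ω, 0 ≤ w ω) →
      (∀ ω, w ω ≤ 1) → |ex μ (fun ω => w ω * (ind (A ω) - s))| ≤ ex μ (fun ω => |ρ ω - s|) := by
    intro w hw hw0 hw1
    have h1 := ex_mul_ce hμ.1 F hw (fun ω => ind (A ω))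
    have h2 : ∀ f : Ω → ℝ, ex μ (fun ω => w ω * (f ω - s)) =
        ex μ (fun ω => w ω * f ω) - ex μ (fun ω => w ω * s) := by
      intro f
      rw [← ex_sub]
      congr 1
      funext ω
      ring
    have h3 : ex μ (fun ω => w ω * (ind (A ω) - s)) = ex μ (fun ω => w ω * (ρ ω - s)) := by
      rw [h2, h2, ← h1]
    rw [h3]
    refine (abs_ex_le hμ.1 _).trans (ex_mono hμ.1 fun ω _ => ?_)
    rw [abs_mul, abs_of_nonneg (hw0 ω)]
    exact mul_le_of_le_one_left (abs_nonneg _) (hw1 ω)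
  have b1 := hgen (fun ω => u (C ω) ω) (fun ω ω' h => by
    rw [hC ω ω' h]
    exact huG _ _ _ (hG ω ω' h)) (fun ω => hu0 _ _) (fun ω => hu1 _ _)
  have b2 := hgen v (fun ω ω' h => hvG _ _ (hG ω ω' h))
    (fun ω => Finset.sum_nonneg fun a _ => sq_nonneg _) (fun ω => by
      refine le_trans (Finset.sum_le_sum fun a _ => ?_) (husum ω)
      have := hu1 a ω
      have := hu0 a ω
      nlinarith)
  rw [e1, e2]
  rw [← e3, ← e4] at e5
  have b3 := le_abs_self (ex μ (fun ω => u (C ω) ω * (ind (A ω) - s)))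
  have b4 := neg_abs_le (ex μ (fun ω => v ω * (ind (A ω) - s)))
  linarith

end abs

section loc

variable (c : Cfg)

theorem rat_eq {z : O c} {k : Fin c.N} (hz : 0 < mu c z) (h : ag c k z) :
    pm (mu c) (fun y => ((GG c k y, x2 c y k), YE c y k)) z / pm (mu c) (fun y => (GG c k y, x2 c y k)) z
      = ce (mu c) (GG c k) (fun y => ind (Cs c y.1 k = Cs c z.1 k) * ind (ag c k y)) z
        / ce (mu c) (GG c k) (fun y => ind (ag c k y)) z := by
  have hp : pm (mu c) (GG c k) z ≠ 0 := (pm_pos (mu_nonneg c) _ hz).ne'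
  have hiff : ∀ y : O c, GG c k y = GG c k z → (x2 c y k = x2 c z k ↔ ag c k y) := by
    intro y hy
    have h1 : x1 c y = x1 c z := congrArg Prod.fst hy
    have h2 : x1 c y k = x1 c z k := by rw [h1]
    unfold ag at h ⊢
    rw [h2, ← h]
    exact ⟨fun h3 => h3.symm, fun h3 => h3.symm⟩
  unfold ce
  rw [div_div_div_cancel_right₀ hp]
  unfold pm
  congr 1
  · refine Finset.sum_congr rfl fun y _ => ?_
    beta_reduce
    rw [mul_assoc, ← ind_and_mul, ← ind_and_mul]
    congr 1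
    apply ind_congr
    simp only [Prod.mk.injEq]
    constructor
    · rintro ⟨⟨h1, h2⟩, h3⟩
      have h4 := (hiff y h1).1 h2
      refine ⟨h1, ?_, h4⟩
      unfold YE at h3
      rw [if_pos h4, if_pos h] at h3
      exact Option.some.inj h3
    · rintro ⟨h1, h2, h3⟩
      refine ⟨⟨h1, (hiff y h1).2 h3⟩, ?_⟩
      unfold YE
      rw [if_pos h3, if_pos h, h2]
  · refine Finset.sum_congr rfl fun y _ => ?_
    beta_reduce
    rw [mul_assoc, ← ind_and_mul]
    congr 1
    apply ind_congr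
    simp only [Prod.mk.injEq]
    exact ⟨fun ⟨h1, h2⟩ => ⟨h1, (hiff y h1).1 h2⟩, fun ⟨h1, h2⟩ => ⟨h1, (hiff y h1).2 h2⟩⟩

theorem ref_G (k : Fin c.N) : Ref (GG c k) (fun z : O c => (z.1, pre (x2 c) k z)) := by
  intro ω ω' h
  simp only [Prod.mk.injEq] at h
  obtain ⟨h1, h2⟩ := h
  have h3 : x1 c ω = x1 c ω' := by
    unfold x1
    rw [h1]
  unfold GG
  rw [h3, h2]
  congr 2
  funext i
  unfold pre
  split_ifs with hi
  · have h4 : x2 c ω i = x2 c ω' i := by
      have := congrFun h2 i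
      unfold pre at this
      rw [if_pos hi, if_pos hi] at this
      exact Option.some.inj this
    unfold YE ag
    rw [h3, h4, h1]
  · rfl

theorem LOC (k : Fin c.N) : (Real.log 5 + 1) * ex (mu c) (fun z => ind (ag c k z))
    ≤ Hc (mu c) (fun z => YE c z k) (fun z => (GG c k z, x2 c z k))
      + 5 / (1 + c.ρ) * coll c k
      + 15 * ex (mu c) (fun z => |rk c k z - 1 / (1 + c.ρ)|) := by
  have hμ := mu_prob c
  have hρ := ρ_pos c
  have h1 := locKey hμ (GG c k) (fun z : O c => Cs c z.1 k) (fun z : O c => (z.1, pre (x2 c) k z))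
    (ag c k) (ref_G c k) (fun ω ω' h => by
      simp only [Prod.mk.injEq] at h
      simp only [h.1]) (1 / (1 + c.ρ)) (by positivity)
  have h2 : ex (mu c) (fun z => (Real.log 5 + 1) * ind (ag c k z)
      - 5 * (ce (mu c) (GG c k) (fun y => ind (Cs c y.1 k = Cs c z.1 k) * ind (ag c k y)) z
        / ce (mu c) (GG c k) (fun y => ind (ag c k y)) z * ind (ag c k z)))
      ≤ Hc (mu c) (fun z => YE c z k) (fun z => (GG c k z, x2 c z k)) := by
    refine ex_mono hμ.1 fun z hz => ?_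
    set P1 := pm (mu c) (fun y => (GG c k y, x2 c y k)) z with hP1
    set P2 := pm (mu c) (fun y => ((GG c k y, x2 c y k), YE c y k)) z with hP2
    have hP1pos : 0 < P1 := pm_pos hμ.1 _ hz
    have hP2pos : 0 < P2 := pm_pos hμ.1 _ hz
    by_cases h : ag c k z
    · rw [ind_of h, mul_one, mul_one, ← rat_eq c hz h]
      have h3 : Real.log (5 * (P2 / P1)) ≤ 5 * (P2 / P1) - 1 :=
        Real.log_le_sub_one_of_pos (by positivity)
      rw [Real.log_mul (by norm_num) (by positivity), Real.log_div hP2pos.ne' hP1pos.ne'] at h3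
      rw [Real.log_div hP1pos.ne' hP2pos.ne']
      linarith
    · rw [ind_of_not h, mul_zero, mul_zero, mul_zero, sub_zero]
      have h3 : P2 ≤ P1 := pm_anti hμ.1 (fun ω ω' hh => congrArg Prod.fst hh) z
      exact Real.log_nonneg ((one_le_div hP2pos).2 h3)
  rw [ex_sub, ex_smul, ex_smul] at h2
  have h3 : ex (mu c) (fun ω => pm (mu c) (fun z => (GG c k z, Cs c z.1 k)) ω
      / pm (mu c) (GG c k) ω) = coll c k := rfl
  rw [h3] at h1
  have h4 : ex (mu c) (fun ω => |ce (mu c) (fun z : O c => (z.1, pre (x2 c) k z))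
      (fun y => ind (ag c k y)) ω - 1 / (1 + c.ρ)|) =
      ex (mu c) (fun z => |rk c k z - 1 / (1 + c.ρ)|) := rfl
  rw [h4] at h1
  have h5 : 5 / (1 + c.ρ) * coll c k = 5 * (1 / (1 + c.ρ) * coll c k) := by ring
  rw [h5]
  linarith

end loc

end

end Pool.Agent.helper8.FH
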