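import Pool.Agent.helper15.FH.GI
import Pool.Agent.helper8.FH.LO

set_option autoImplicit false

/-! # One place, upper bound for the collision probability (module fh:SL) -/

namespace Pool.Agent.helper8.FH

open Finset Pool.Agent.helper32.Cant Pool.Agent.helper15.FH

noncomputable section

/-- the next vertex of the pentagon -/
def nx (u : Y) : Y := (u.1, u.2 + 1)

/-- the previous vertex of the pentagon -/
def pv (u : Y) : Y := (u.1, u.2 + 4)

/-- the edge starting at `u` -/
def Ed (u : Y) : Finset Y := {u, nx u}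

theorem nx_ne : ∀ u : Y, u ≠ nx u := by
  unfold nx
  decide

theorem Ed_card (u : Y) : (Ed u).card = 2 := card_pair (nx_ne u)

theorem Ed_inj : ∀ a u : Y, Ed a = Ed u → a = u := by
  unfold Ed nx
  decide

theorem pv_iff : ∀ a u : Y, a = pv u ↔ u = nx a := by
  unfold pv nx
  decide

theorem z5a : ∀ i : ZMod 5, i + 1 + 4 = i := by decide
theorem z5b : ∀ i : ZMod 5, i + 2 + 4 = i + 1 := by decide
theorem z5c : ∀ i : ZMod 5, i + 3 + 4 = i + 2 := by decide
theorem z5d : ∀ i : ZMod 5, i + 4 + 4 = i + 3 := by decide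

/-- the pentagon inequality -/
theorem pent_le (t : Y → ℝ) (D : ℝ) (h : ∑ u : Y, |(t u + t (pv u)) / 2 - 1 / 10| ≤ D) (u : Y) :
    t u ≤ 1 / 10 + D := by
  set f : Y → ℝ := fun u => (t u + t (pv u)) / 2 - 1 / 10 with hf
  have hinj : ∀ b : Bool, ∑ i : ZMod 5, |f (b, i)| ≤ D := by
    intro b
    refine le_trans ?_ h
    rw [Fintype.sum_prod_type]
    exact single_le_sum (f := fun b => ∑ i : ZMod 5, |f (b, i)|)
      (fun b _ => sum_nonneg fun i _ => abs_nonneg _) (mem_univ b)
  obtain ⟨b, i⟩ := u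
  have h1 := hinj b
  have h2 : ∑ j : ZMod 5, |f (b, j)| = ∑ j : ZMod 5, |f (b, i + j)| :=
    (Equiv.sum_comp (Equiv.addLeft i) (fun j => |f (b, j)|)).symm
  rw [h2] at h1
  have h3 : ∑ j : ZMod 5, |f (b, i + j)| = |f (b, i + 0)| + |f (b, i + 1)| + |f (b, i + 2)|
      + |f (b, i + 3)| + |f (b, i + 4)| := by
    exact Fin.sum_univ_five (fun j : ZMod 5 => |f (b, i + j)|)
  rw [h3] at h1
  have e0 : f (b, i + 0) = (t (b, i) + t (b, i + 4)) / 2 - 1 / 10 := by
    simp only [hf, pv, add_zero]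
  have e1 : f (b, i + 1) = (t (b, i + 1) + t (b, i)) / 2 - 1 / 10 := by
    have := z5a i
    simp only [hf, pv, this]
  have e2 : f (b, i + 2) = (t (b, i + 2) + t (b, i + 1)) / 2 - 1 / 10 := by
    have := z5b i
    simp only [hf, pv, this]
  have e3 : f (b, i + 3) = (t (b, i + 3) + t (b, i + 2)) / 2 - 1 / 10 := by
    have := z5c i
    simp only [hf, pv, this]
  have e4 : f (b, i + 4) = (t (b, i + 4) + t (b, i + 3)) / 2 - 1 / 10 := by
    have := z5d i
    simp only [hf, pv, this]
  have a0 := le_abs_self (f (b, i + 0))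
  have a1 := le_abs_self (f (b, i + 1))
  have a2 := neg_abs_le (f (b, i + 2))
  have a3 := le_abs_self (f (b, i + 3))
  have a4 := neg_abs_le (f (b, i + 4))
  rw [e0] at a0 h1
  rw [e1] at a1 h1
  rw [e2] at a2 h1
  rw [e3] at a3 h1
  rw [e4] at a4 h1
  linarith

/-- sets which are pairwise compatible are points or edges -/
theorem set_cases {s : Finset Y} (h : ∀ u ∈ s, ∀ u' ∈ s, cY u u') (h0 : 0 < s.card) :
    (∃ a, s = {a}) ∨ ∃ a, s = Ed a := by
  have h2 := card_le_two_of_compat h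
  have h3 : s.card = 1 ∨ s.card = 2 := by omega
  rcases h3 with h3 | h3
  · exact Or.inl (card_eq_one.1 h3)
  · right
    obtain ⟨a, b, hab, rfl⟩ := card_eq_two.1 h3
    obtain ⟨h4, h5⟩ := h a (by simp) b (by simp)
    rcases h5 with h5 | h5 | h5
    · exact absurd (Prod.ext h4 h5.symm) hab
    · refine ⟨a, ?_⟩
      have : nx a = b := Prod.ext h4 h5.symm
      unfold Ed
      rw [this]
    · refine ⟨b, ?_⟩
      have : nx b = a := Prod.ext h4.symm h5.symm
      unfold Ed
      rw [this, pair_comm]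

variable (c : Cfg)

/-- the uniform weight on the set -/
def ww (k : Fin c.N) (z : O c) (u : Y) : ℝ := ind (u ∈ Cs c z.1 k) / ((Cs c z.1 k).card : ℝ)

theorem ww_eq (k : Fin c.N) (z : O c) (u : Y) : ww c k z u =
    (ind (Cs c z.1 k = Ed u) + ind (Cs c z.1 k = Ed (pv u))) / 2 + ind (Cs c z.1 k = {u}) := by
  unfold ww
  rcases set_cases (fun u hu u' hu' => Cs_compat c hu hu') (Cs_card_pos c z.1 k) with
    ⟨a, ha⟩ | ⟨a, ha⟩
  · rw [ha]
    have h1 : ∀ v, ({a} : Finset Y) ≠ Ed v := by
      intro v h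
      have := congrArg card h
      rw [Ed_card, card_singleton] at this
      omega
    rw [ind_of_not (h1 _), ind_of_not (h1 _), card_singleton, ind_congr (mem_singleton (a := a) (b := u)),
      ind_congr (singleton_inj (a := a) (b := u)), ind_congr (eq_comm (a := u))]
    norm_num
  · rw [ha]
    have h1 : Ed a ≠ {u} := by
      intro h
      have := congrArg card h
      rw [Ed_card, card_singleton] at this
      omega
    rw [ind_of_not h1, Ed_card, add_zero]
    have h2 : ind (u ∈ Ed a) = ind (Ed a = Ed u) + ind (Ed a = Ed (pv u)) := by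
      have e1 : (Ed a = Ed u) ↔ a = u := ⟨Ed_inj a u, fun h => by rw [h]⟩
      have e2 : (Ed a = Ed (pv u)) ↔ u = nx a :=
        ⟨fun h => (pv_iff a u).1 (Ed_inj _ _ h), fun h => by rw [(pv_iff a u).2 h]⟩
      rw [ind_congr e1, ind_congr e2]
      have e3 : (u ∈ Ed a) ↔ (a = u ∨ u = nx a) := by
        unfold Ed
        rw [mem_insert, mem_singleton, eq_comm]
      rw [ind_congr e3]
      by_cases c1 : a = u
      · have c2 : ¬ u = nx a := by
          rw [← c1]
          exact nx_ne a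
        rw [ind_of (Or.inl c1), ind_of c1, ind_of_not c2, add_zero]
      · by_cases c2 : u = nx a
        · rw [ind_of (Or.inr c2), ind_of_not c1, ind_of c2, zero_add]
        · rw [ind_of_not (fun h => h.elim c1 c2), ind_of_not c1, ind_of_not c2, add_zero]
    rw [h2]
    norm_num

theorem sum_ww (k : Fin c.N) (z : O c) : ∑ u, ww c k z u = 1 := by
  classical
  unfold ww
  rw [← Finset.sum_div]
  have h1 : ∑ u, ind (u ∈ Cs c z.1 k) = ((Cs c z.1 k).card : ℝ) := by
    calc ∑ u, ind (u ∈ Cs c z.1 k) = ∑ u ∈ Cs c z.1 k, ind (u ∈ Cs c z.1 k) :=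
          (Finset.sum_subset (subset_univ _) (fun u _ hu => ind_of_not hu)).symm
      _ = ∑ u ∈ Cs c z.1 k, (1 : ℝ) := Finset.sum_congr rfl fun u hu => ind_of hu
      _ = ((Cs c z.1 k).card : ℝ) := by simp
  rw [h1]
  have h2 : ((Cs c z.1 k).card : ℝ) ≠ 0 := by
    exact_mod_cast (Cs_card_pos c z.1 k).ne'
  exact div_self h2

theorem bad_eq (k : Fin c.N) (z : O c) : ∑ u, ind (Cs c z.1 k = {u}) ≤ bad c k z := by
  classical
  unfold bad
  by_cases h : ∃ u, Cs c z.1 k = {u}
  · obtain ⟨a, ha⟩ := h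
    rw [ha, card_singleton, ind_of (by norm_num)]
    have h1 : ∑ u, ind (({a} : Finset Y) = {u}) = ∑ u, ind (a = u) * 1 :=
      Finset.sum_congr rfl fun u _ => by rw [mul_one, ind_congr singleton_inj]
    rw [h1, sum_ind_eq (fun _ => (1 : ℝ)) a]
  · rw [Finset.sum_eq_zero]
    · exact ind_nonneg _
    · intro u _
      exact ind_of_not fun h1 => h ⟨u, h1⟩

theorem SLL (k : Fin c.N) : coll c k ≤ 1 / 10
    + 2 * √(Real.log 10 - Hc (mu c) (fun z => y1 c z k) (GG c k))
    + 2 * √(Real.log 2 - Hc (mu c) (fun z => y1 c z k) (fun z => (GG c k z, Cs c z.1 k)))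
    + 2 * ex (mu c) (bad c k) := by
  classical
  have hμ := mu_prob c
  set G := GG c k with hG
  set P := ce (mu c) (fun z => (G z, Cs c z.1 k)) with hP
  set D1 : O c → ℝ := fun ω => ∑ u, |ce (mu c) G (fun y => ind (y1 c y k = u)) ω - 1 / 10| with hD1
  set V : O c → ℝ := fun ω => ∑ u, |P (fun y => ind (y1 c y k = u)) ω - ww c k ω u| with hV
  set D2 : O c → ℝ := ce (mu c) G V with hD2
  set B : O c → ℝ := ce (mu c) G (bad c k) with hB
  -- the two entropy bounds
  have b1 : ex (mu c) D1 ≤ 2 * √(Real.log 10 - Hc (mu c) (fun z => y1 c z k) G) := by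
    have h1 := gibbs_defect hμ (fun z => y1 c z k) G (fun _ _ => 1 / 10)
      (fun _ _ => by norm_num) (fun _ _ _ => rfl) (fun _ => by simp)
      (fun _ _ => by norm_num)
    have h2 : ex (mu c) (fun _ => -Real.log (1 / 10)) = Real.log 10 := by
      rw [ex_const hμ, Real.log_div (by norm_num) (by norm_num), Real.log_one]
      ring
    rw [h2] at h1
    refine (ex_le_sqrt hμ D1).trans ?_
    have h3 : ex (mu c) (fun ω => D1 ω ^ 2) ≤
        2 ^ 2 * (Real.log 10 - Hc (mu c) (fun z => y1 c z k) G) := by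
      have h4 : ex (mu c) (fun ω => D1 ω ^ 2) = ex (mu c) (fun ω =>
        (∑ z, |ce (mu c) G (fun y => ind (y1 c y k = z)) ω - 1 / 10|) ^ 2) := rfl
      rw [h4]
      linarith
    calc √(ex (mu c) (fun ω => D1 ω ^ 2))
        ≤ √(2 ^ 2 * (Real.log 10 - Hc (mu c) (fun z => y1 c z k) G)) := Real.sqrt_le_sqrt h3
      _ = _ := by
          rw [Real.sqrt_mul (by norm_num), Real.sqrt_sq (by norm_num)]
  have b2 : ex (mu c) V ≤
      2 * √(Real.log 2 - Hc (mu c) (fun z => y1 c z k) (fun z => (G z, Cs c z.1 k))) := by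
    have hwpos : ∀ ω : O c, 0 < ww c k ω (y1 c ω k) := by
      intro ω
      unfold ww
      have h0 : ind (y1 c ω k ∈ Cs c ω.1 k) = 1 := ind_of (self_mem_Cs c ω.1 k)
      rw [h0]
      have : (0 : ℝ) < ((Cs c ω.1 k).card : ℝ) := by exact_mod_cast Cs_card_pos c ω.1 k
      positivity
    have h1 := gibbs_defect hμ (fun z => y1 c z k) (fun z => (G z, Cs c z.1 k)) (ww c k)
      (fun ω u => by
        unfold ww
        exact div_nonneg (ind_nonneg _) (Nat.cast_nonneg _))
      (fun ω ω' h => by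
        simp only [Prod.mk.injEq] at h
        funext u
        unfold ww
        rw [h.2])
      (fun ω => (sum_ww c k ω).le) (fun ω _ => hwpos ω)
    have h2 : ex (mu c) (fun ω => -Real.log (ww c k ω (y1 c ω k))) ≤ Real.log 2 := by
      rw [← ex_const hμ (Real.log 2)]
      refine ex_mono hμ.1 fun ω _ => ?_
      have h3 : ww c k ω (y1 c ω k) = 1 / ((Cs c ω.1 k).card : ℝ) := by
        unfold ww
        have h0 : ind (y1 c ω k ∈ Cs c ω.1 k) = 1 := ind_of (self_mem_Cs c ω.1 k)
        rw [h0]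
      have h4 : (0 : ℝ) < ((Cs c ω.1 k).card : ℝ) := by exact_mod_cast Cs_card_pos c ω.1 k
      have h5 : ((Cs c ω.1 k).card : ℝ) ≤ 2 := by exact_mod_cast Cs_card c ω.1 k
      rw [h3, Real.log_div (by norm_num) h4.ne', Real.log_one, zero_sub, neg_neg]
      exact Real.log_le_log h4 h5
    refine (ex_le_sqrt hμ V).trans ?_
    have h3 : ex (mu c) (fun ω => V ω ^ 2) ≤
        2 ^ 2 * (Real.log 2 - Hc (mu c) (fun z => y1 c z k) (fun z => (G z, Cs c z.1 k))) := by
      have h4 : ex (mu c) (fun ω => V ω ^ 2) = ex (mu c) (fun ω =>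
        (∑ z, |ce (mu c) (fun z => (G z, Cs c z.1 k)) (fun y => ind (y1 c y k = z)) ω
          - ww c k ω z|) ^ 2) := rfl
      rw [h4]
      linarith
    calc √(ex (mu c) (fun ω => V ω ^ 2))
        ≤ √(2 ^ 2 * (Real.log 2 - Hc (mu c) (fun z => y1 c z k) (fun z => (G z, Cs c z.1 k)))) :=
          Real.sqrt_le_sqrt h3
      _ = _ := by
          rw [Real.sqrt_mul (by norm_num), Real.sqrt_sq (by norm_num)]
  -- the pointwise bound
  have hV0 : ∀ ω, 0 ≤ V ω := fun ω => sum_nonneg fun u _ => abs_nonneg _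
  have hpt : ∀ ω, 0 < mu c ω → ∀ u,
      ce (mu c) G (fun y => ind (Cs c y.1 k = Ed u)) ω ≤ 1 / 10 + (D1 ω + D2 ω + B ω) := by
    intro ω _ u
    refine pent_le (fun u => ce (mu c) G (fun y => ind (Cs c y.1 k = Ed u)) ω) _ ?_ u
    set s : Y → ℝ := fun u => ce (mu c) G (fun y => ind (Cs c y.1 k = {u})) ω with hs
    have hs0 : ∀ u, 0 ≤ s u := fun u => ce_nonneg hμ.1 G ω fun y _ _ => ind_nonneg _
    have h1 : ∀ u, (ce (mu c) G (fun y => ind (Cs c y.1 k = Ed u)) ω +
        ce (mu c) G (fun y => ind (Cs c y.1 k = Ed (pv u))) ω) / 2 =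
        ce (mu c) G (fun y => ww c k y u) ω - s u := by
      intro u
      have h2 : ce (mu c) G (fun y => ww c k y u) ω =
          ce (mu c) G (fun y => (1 / 2 * ind (Cs c y.1 k = Ed u)
            + 1 / 2 * ind (Cs c y.1 k = Ed (pv u))) + ind (Cs c y.1 k = {u})) ω := by
        congr 1
        funext y
        rw [ww_eq]
        ring
      rw [h2, ce_add, ce_add, ce_smul, ce_smul]
      simp only [hs]
      ring
    have h2 : ∀ u, |ce (mu c) G (fun y => ind (y1 c y k = u)) ω
        - ce (mu c) G (fun y => ww c k y u) ω| ≤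
        ce (mu c) G (fun y => |P (fun y => ind (y1 c y k = u)) y - ww c k y u|) ω := by
      intro u
      have h3 : ce (mu c) G (fun y => ind (y1 c y k = u)) ω =
          ce (mu c) G (P (fun y => ind (y1 c y k = u))) ω := by
        rw [hP, ce_ce hμ.1 (Y := fun z => (G z, Cs c z.1 k))
          (fun ω ω' h => by
            simp only [Prod.mk.injEq] at h
            exact h.1)]
      rw [h3, ← ce_sub]
      exact abs_ce_le hμ.1 G _ ω
    have h3 : ∑ u, ce (mu c) G (fun y => |P (fun y => ind (y1 c y k = u)) y - ww c k y u|) ω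
        = D2 ω := by
      rw [hD2, hV, ← ce_sum]
    have h4 : ∑ u, s u ≤ B ω := by
      simp only [hs, hB]
      rw [← ce_sum]
      exact ce_mono hμ.1 G ω fun y _ _ => bad_eq c k y
    calc ∑ u, |(ce (mu c) G (fun y => ind (Cs c y.1 k = Ed u)) ω +
          ce (mu c) G (fun y => ind (Cs c y.1 k = Ed (pv u))) ω) / 2 - 1 / 10|
        ≤ ∑ u, (|ce (mu c) G (fun y => ind (y1 c y k = u)) ω - 1 / 10| +
            ce (mu c) G (fun y => |P (fun y => ind (y1 c y k = u)) y - ww c k y u|) ω + s u) := by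
          refine Finset.sum_le_sum fun u _ => ?_
          rw [h1 u]
          have a1 := h2 u
          have a2 := hs0 u
          have a3 := abs_sub_abs_le_abs_sub
            (ce (mu c) G (fun y => ww c k y u) ω) (ce (mu c) G (fun y => ind (y1 c y k = u)) ω)
          rw [abs_le]
          have a4 := abs_le.1 a1
          have a5 := neg_abs_le (ce (mu c) G (fun y => ind (y1 c y k = u)) ω - 1 / 10)
          have a6 := le_abs_self (ce (mu c) G (fun y => ind (y1 c y k = u)) ω - 1 / 10)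
          constructor
          · linarith [a4.1, a4.2]
          · linarith [a4.1, a4.2]
      _ = D1 ω + D2 ω + ∑ u, s u := by
          rw [Finset.sum_add_distrib, Finset.sum_add_distrib, h3]
      _ ≤ D1 ω + D2 ω + B ω := by linarith
  have hcoll : coll c k ≤ ex (mu c) (fun ω => (1 / 10 + (D1 ω + D2 ω + B ω)) + bad c k ω) := by
    refine ex_mono hμ.1 fun ω hω => ?_
    have hD1' : 0 ≤ D1 ω := sum_nonneg fun u _ => abs_nonneg _
    have hD2' : 0 ≤ D2 ω := ce_nonneg hμ.1 G ω fun y _ _ => hV0 y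
    have hB' : 0 ≤ B ω := ce_nonneg hμ.1 G ω fun y _ _ => ind_nonneg _
    have h1 : pm (mu c) (fun z => (GG c k z, Cs c z.1 k)) ω / pm (mu c) (GG c k) ω =
        ce (mu c) G (fun y => ind (Cs c y.1 k = Cs c ω.1 k)) ω := by
      unfold ce
      congr 1
      unfold pm
      refine Finset.sum_congr rfl fun y _ => ?_
      beta_reduce
      rw [mul_assoc, ← ind_and_mul, ind_congr Prod.mk_inj]
    rw [h1]
    rcases set_cases (fun u hu u' hu' => Cs_compat c hu hu') (Cs_card_pos c ω.1 k) with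
      ⟨a, ha⟩ | ⟨a, ha⟩
    · have h2 : bad c k ω = 1 := by
        unfold bad
        rw [ha]
        exact ind_of (by simp)
      rw [h2]
      have h3 : ce (mu c) G (fun y => ind (Cs c y.1 k = Cs c ω.1 k)) ω ≤ 1 := by
        rw [← ce_const hμ.1 G hω 1]
        exact ce_mono hμ.1 G ω fun y _ _ => ind_le_one _
      linarith
    · have h2 : 0 ≤ bad c k ω := ind_nonneg _
      rw [ha]
      have := hpt ω hω a
      linarith
  refine hcoll.trans ?_
  rw [ex_add, ex_add, ex_add, ex_add, ex_const hμ]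
  have e1 : ex (mu c) (fun ω => D2 ω) = ex (mu c) V := ex_ce hμ.1 G V
  have e2 : ex (mu c) (fun ω => B ω) = ex (mu c) (bad c k) := ex_ce hμ.1 G _
  have e3 : ex (mu c) (fun ω => bad c k ω) = ex (mu c) (bad c k) := rfl
  have e4 : ex (mu c) (fun ω => D1 ω) = ex (mu c) D1 := rfl
  rw [e1, e2, e3, e4]
  linarith

end

end Pool.Agent.helper8.FH
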